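import Pool.Agent.P.MP_f77f75_an.Haar2

/-!
For every `1 < p < ∞` there is a renorming of `L_p[0,1]` relative to which the `L_p`-normalised Haar
system is isometrically greedy, while the `L_{p'}`-normalised Haar system is isometrically greedy
relative to the dual norm on `L_{p'}[0,1]`.
-/

set_option autoImplicit false

namespace Pool.Agent.Results.MP_f77f75_an.BiGreedy

open Pool.Agent.P.MP_f77f75_an

theorem result (𝕜 : Type) [RCLike 𝕜] (p : ℝ) (hp : 1 < p) :
    ∃ N : Lq 𝕜 p → ℝ, IsRenorming N ∧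
      IsoGreedy (haar 𝕜 p) (fun j (f : Lq 𝕜 p) => pairing f (haar 𝕜 (p / (p - 1)) j)) N ∧
      IsoGreedy (haar 𝕜 (p / (p - 1)))
        (fun j (g : Lq 𝕜 (p / (p - 1))) => pairing (haar 𝕜 p j) g) (dualNorm N) := by
  have hpp : p.HolderConjugate (p / (p - 1)) := (Real.holderConjugate_iff_eq_conjExponent hp).2 rfl
  have : Fact (1 ≤ ENNReal.ofReal p) := ⟨by simpa using hp.le⟩
  have : Fact (1 ≤ ENNReal.ofReal (p / (p - 1))) := ⟨by simpa using hpp.symm.lt.le⟩
  let T := haarSys (𝕜 := 𝕜) hpp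
  obtain ⟨c, hc, hlow⟩ := T.exists_lower
  exact ⟨T.NN, ⟨T.NN_add_le, fun a f => map_smul_eq_mul T.semi a f, c, T.up, hc,
    fun f => ⟨hlow f, T.NN_upper f⟩⟩, T.greedy_primal, T.greedy_dual⟩

end Pool.Agent.Results.MP_f77f75_an.BiGreedy
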